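import Pool.Agent.KS6_84.Dly.Alg
import Pool.Graph.R_seed8.R566.Delay.Fun

set_option autoImplicit false

open Set Filter Topology

namespace Pool.Agent.Results.MP_ce7f0c_lc.WildDelay

open Pool.Agent.KS6_84.Dly

/-- The uniform metric with distance `D`. -/
def uniform (n : ℕ) (D : ℝ) (x y : Fin n) : ℝ := if x = y then 0 else D

/-- Examples of wild delay functions: `t * exp (t ^ 2 - 1 / t) * g t`. -/
noncomputable def example_ (g : ℝ → ℝ) (t : ℝ) : ℝ := t * Real.exp (t ^ 2 - 1 / t) * g t

lemma f0_lib : Pool.Agent.R566.Delay.f0 = fun t : ℝ => t * Real.exp (t ^ 2 - 1 / t) := rfl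

lemma exs {g : ℝ → ℝ} (g1 : ConvexOn ℝ (Ici 0) g) (g2 : MonotoneOn g (Ici 0))
    (g3 : ContinuousOn g (Ici 0)) (g4 : ∀ t, 0 < t → 0 < g t) :
    DelayFunction (example_ g) ∧ Wild (example_ g) := by
  have F := Pool.Agent.R566.Delay.f0_delay
  have ee : example_ g = Pool.Agent.R566.Delay.f0 * g := rfl
  have gn : ∀ t, 0 ≤ t → 0 ≤ g t := by
    intro t ht
    rcases ht.eq_or_lt with rfl | ht
    · refine ge_of_tendsto (a := g 0) (f := g) (x := 𝓝[>] 0) ?_ ?_
      · exact ((g3 0 (mem_Ici.2 le_rfl)).tendsto).mono_left (nhdsWithin_mono _ Ioi_subset_Ici_self)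
      · filter_upwards [self_mem_nhdsWithin] with t ht using (g4 t ht).le
    · exact (g4 t ht).le
  have fn : ∀ t, 0 ≤ t → 0 ≤ Pool.Agent.R566.Delay.f0 t := fun t ht =>
    Pool.Agent.R566.Delay.f0_nonneg ht
  have fp : ∀ t, 0 < t → 0 < Pool.Agent.R566.Delay.f0 t := fun t ht =>
    mul_pos ht (Real.exp_pos _)
  have mono : MonotoneOn (example_ g) (Ici 0) := fun s hs t ht hst =>
    mul_le_mul (F.mono hs ht hst) (g2 hs ht hst) (gn s hs) (fn t ht)
  have zero : example_ g 0 = 0 := by simp [example_]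
  refine ⟨⟨?_, mono, ?_, ?_, zero, ?_⟩, ⟨mono, zero, ?_, ?_⟩⟩
  · rw [ee]
    exact F.convex.mul g1 (fun t ht => fn t ht) (fun t ht => gn t ht)
      (F.mono.monovaryOn g2)
  · rw [ee]
    exact F.cont.mul g3
  · intro B
    obtain ⟨t, t0, t1⟩ := F.unbounded (|B| / g 1)
    refine ⟨max t 1, t0.trans (le_max_left _ _), ?_⟩
    have h1 : 0 < g 1 := g4 1 one_pos
    have h2 := F.mono (mem_Ici.2 t0) (mem_Ici.2 (t0.trans (le_max_left t 1))) (le_max_left t 1)
    have h3 := g2 (mem_Ici.2 zero_le_one) (mem_Ici.2 (t0.trans (le_max_left t 1))) (le_max_right t 1)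
    have h4 : |B| / g 1 * g 1 ≤ example_ g (max t 1) :=
      mul_le_mul (t1.trans h2) h3 h1.le (fn _ (t0.trans (le_max_left t 1)))
    rw [div_mul_cancel₀ _ h1.ne'] at h4
    exact (le_abs_self B).trans h4
  · rw [hasDerivWithinAt_iff_tendsto_slope]
    have h1 := hasDerivWithinAt_iff_tendsto_slope.1 F.deriv_zero
    have h2 : Tendsto g (𝓝[Ici 0 \ {0}] 0) (𝓝 (g 0)) :=
      ((g3 0 (mem_Ici.2 le_rfl)).tendsto).mono_left (nhdsWithin_mono _ sdiff_subset)
    have h3 := h1.mul h2
    rw [zero_mul] at h3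
    refine h3.congr fun t => ?_
    simp only [slope_def_field, zero, F.zero, sub_zero]
    rw [ee, Pi.mul_apply]
    ring
  · intro C ε hε
    have h0 : 0 < max C 0 + 1 := by positivity
    obtain ⟨δ, δ0, d1, d2, d3⟩ := Pool.Agent.R566.Delay.f0_small (R := max C 0 + 1)
      (D := (max C 0 + 1) * (Pool.Agent.R566.Delay.f0 ε / 2)) h0
      (mul_pos h0 (half_pos (fp ε hε)))
    have d4 := le_of_mul_le_mul_left d2 h0
    have d5 := fp ε hε
    refine ⟨2 * δ, by positivity, ?_, ?_⟩
    · by_contra hc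
      have := F.mono (mem_Ici.2 hε.le) (mem_Ici.2 (by positivity)) (not_lt.1 hc)
      linarith
    · have d6 := F.mono (a := 5 / 2 * δ) (b := 2 * (2 * δ)) (mem_Ici.2 (by positivity))
        (mem_Ici.2 (by positivity)) (by linarith)
      have d7 := g4 (2 * δ) (by positivity)
      have d8 := g2 (a := 2 * δ) (b := 2 * (2 * δ)) (mem_Ici.2 (by positivity))
        (mem_Ici.2 (by positivity)) (by linarith)
      rw [ee, Pi.mul_apply, Pi.mul_apply]
      have d9 : C * Pool.Agent.R566.Delay.f0 (2 * δ) <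
          (max C 0 + 1) * Pool.Agent.R566.Delay.f0 (2 * δ) :=
        mul_lt_mul_of_pos_right (by linarith [le_max_left C 0]) d1
      calc C * (Pool.Agent.R566.Delay.f0 (2 * δ) * g (2 * δ))
          = C * Pool.Agent.R566.Delay.f0 (2 * δ) * g (2 * δ) := by ring
        _ < Pool.Agent.R566.Delay.f0 (2 * (2 * δ)) * g (2 * δ) :=
          mul_lt_mul_of_pos_right (by linarith) d7
        _ ≤ _ := mul_le_mul_of_nonneg_left d8 (fn _ (by positivity))
  · intro δ hδ C S
    obtain ⟨s, s1, s2⟩ := Pool.Agent.R566.Delay.f0_large hδ (max C 0)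
      (Pool.Agent.R566.Delay.f0 (|S| + δ))
    have s0 : 0 < s := hδ.trans s1
    have e1 : 0 ≤ max C 0 * Pool.Agent.R566.Delay.f0 s := mul_nonneg (le_max_right _ _) (fn s s0.le)
    have e2 := fn (s + δ) (by positivity)
    have e3 := fn (|S| + δ) (by positivity)
    refine ⟨s, ?_, ?_⟩
    · by_contra hc
      have := F.mono (a := s + δ) (b := |S| + δ) (mem_Ici.2 (by positivity))
        (mem_Ici.2 (by positivity)) (by linarith [le_abs_self S])
      linarith
    · have d7 := g4 s s0
      have d8 := g2 (a := s) (b := s + δ) (mem_Ici.2 s0.le)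
        (mem_Ici.2 (by positivity)) (by linarith)
      have e4 : C * Pool.Agent.R566.Delay.f0 s ≤ max C 0 * Pool.Agent.R566.Delay.f0 s :=
        mul_le_mul_of_nonneg_right (le_max_left _ _) (fn s s0.le)
      rw [ee, Pi.mul_apply, Pi.mul_apply]
      calc C * (Pool.Agent.R566.Delay.f0 s * g s)
          = C * Pool.Agent.R566.Delay.f0 s * g s := by ring
        _ < Pool.Agent.R566.Delay.f0 (s + δ) * g s :=
          mul_lt_mul_of_pos_right (by linarith [fp (s + δ) (by positivity)]) d7
        _ ≤ _ := mul_le_mul_of_nonneg_left d8 e2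

lemma uniform_dist (n : ℕ) {D : ℝ} (hD : 0 < D) : IsDist (uniform n D) where
  self x := by simp [uniform]
  nonneg x y := by
    unfold uniform
    split_ifs
    · exact le_rfl
    · exact hD.le
  symm x y := by simp only [uniform, eq_comm]

/-- (1) For every wild delay function `f` (nondecreasing on `[0, ∞)`, `f 0 = 0`,
`f (2 t) / f t` unbounded as `t → 0`, and `f (s + δ) / f s` unbounded as `s → ∞` for every `δ > 0`)
and every set of points with a distance function for which some two points have positive distance,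
no randomised online algorithm for matching with delays has a finite competitive ratio.
(2) For every positive, continuous, nondecreasing, convex `g` the function
`t * exp (t ^ 2 - 1 / t) * g t` is wild and lies in the class of the question.
(3) For every wild `f` in the class, every `D > 0`, every `n ≥ 2` and every `c` there is no
`c`-competitive randomised online algorithm on the `n`-point uniform metric. -/
theorem result :
    (∀ f : ℝ → ℝ, Wild f → ∀ (V : Type) (d : V → V → ℝ), IsDist d → (∃ a b, 0 < d a b) →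
      ∀ (A : Randomized V) (c : ℝ), ¬ A.Competitive f d c) ∧
    (∀ g : ℝ → ℝ, ConvexOn ℝ (Ici 0) g → MonotoneOn g (Ici 0) → ContinuousOn g (Ici 0) →
      (∀ t, 0 < t → 0 < g t) → DelayFunction (example_ g) ∧ Wild (example_ g)) ∧
    ∀ f : ℝ → ℝ, DelayFunction f → Wild f → ∀ D : ℝ, 0 < D → ∀ n : ℕ, 2 ≤ n →
      ∀ (A : Randomized (Fin n)) (c : ℝ), ¬ A.Competitive f (uniform n D) c := by
  refine ⟨?_, fun g => exs, ?_⟩
  · rintro f hf V d hd ⟨a, b, hab⟩ A c
    exact no_competitive hf hd hab A c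
  · intro f _ hf D hD n hn A c
    refine no_competitive (a := ⟨0, by omega⟩) (b := ⟨1, by omega⟩) hf (uniform_dist n hD) ?_ A c
    rw [uniform, if_neg]
    · exact hD
    · intro h
      have := congrArg Fin.val h
      simp at this

end Pool.Agent.Results.MP_ce7f0c_lc.WildDelay
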